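import Pool.Agent.BPF.TM
import Pool.Agent.TSF.Omega

/-!
# An infinite binary word with exponents at most `7/3` and without the factor `0101`:
the image of the ternary square-free word `Ω` under a 36-uniform morphism.
-/

set_option autoImplicit false

namespace Pool.Agent.BPF

open Pool.Agent.TSF (Om Om_ne Om_sqf Om_rec Om_zero)

/-- codes of the three images (bit `r` is the `r`-th letter):
`0 ↦ 100110010011010011011001001101100110`,
`1 ↦ 100110010011011001001101001101100110`,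
`2 ↦ 100110110010011010011001001101100110`. -/
def cB : Fin 3 → ℕ
  | 0 => 27591912601
  | 1 => 27593436313
  | 2 => 27591795929

def gB (a : Fin 3) (r : ℕ) : Fin 2 := if (cB a).testBit r then 1 else 0

def wB (a b c : Fin 3) : ℕ := cB a + cB b * 2 ^ 36 + cB c * 2 ^ 72

def winB (a b c : Fin 3) (i : ℕ) : Fin 2 := if (wB a b c).testBit i then 1 else 0

/-- the infinite word. -/
def U (i : ℕ) : Fin 2 := gB (Om (i / 36)) (i % 36)

theorem U_rec (q r : ℕ) (hr : r < 36) : U (36 * q + r) = gB (Om q) r := by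
  unfold U
  congr 1
  · congr 1; omega
  · omega

theorem winB_0 : ∀ a b c : Fin 3, ∀ i < 36, winB a b c i = gB a i := by decide +kernel
theorem winB_1 : ∀ a b c : Fin 3, ∀ i < 36, winB a b c (36 + i) = gB b i := by decide +kernel
theorem winB_2 : ∀ a b c : Fin 3, ∀ i < 36, winB a b c (72 + i) = gB c i := by decide +kernel

theorem U_win (q i : ℕ) (hi : i < 108) :
    U (36 * q + i) = winB (Om q) (Om (q + 1)) (Om (q + 2)) i := by
  rcases Nat.lt_or_ge i 36 with h | h
  · rw [U_rec q i h, winB_0 _ _ _ _ h]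
  rcases Nat.lt_or_ge i 72 with h' | h'
  · obtain ⟨j, rfl⟩ := Nat.exists_eq_add_of_le h
    rw [show 36 * q + (36 + j) = 36 * (q + 1) + j by ring, U_rec _ _ (by omega),
      winB_1 _ _ _ _ (by omega)]
  · obtain ⟨j, rfl⟩ := Nat.exists_eq_add_of_le h'
    rw [show 36 * q + (72 + j) = 36 * (q + 2) + j by ring, U_rec _ _ (by omega),
      winB_2 _ _ _ _ (by omega)]

theorem winB_congr : ∀ a b c : Fin 3, ∀ i < 72, winB a b c i = winB a b 0 i := by decide +kernel

theorem U_win2 (q i : ℕ) (hi : i < 72) : U (36 * q + i) = winB (Om q) (Om (q + 1)) 0 i := by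
  rw [U_win q i (by omega), winB_congr _ _ _ i hi]

/-- if the codes differ somewhere in the first `n` bits then the letters differ somewhere. -/
theorem win_ne (a b c a' b' c' : Fin 3) (r r' n : ℕ)
    (h : ((wB a b c >>> r) ^^^ (wB a' b' c' >>> r')) % 2 ^ n ≠ 0) :
    ∃ j < n, winB a b c (r + j) ≠ winB a' b' c' (r' + j) := by
  by_contra hcon
  push Not at hcon
  apply h
  apply Nat.eq_of_testBit_eq
  intro j
  rw [Nat.testBit_mod_two_pow, Nat.testBit_xor, Nat.testBit_shiftRight,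
    Nat.testBit_shiftRight, Nat.zero_testBit]
  by_cases hj : j < n
  · have := hcon j hj
    unfold winB at this
    cases h1 : (wB a b c).testBit (r + j) <;> cases h2 : (wB a' b' c').testBit (r' + j) <;>
      simp [h1, h2] at this ⊢
  · simp [hj]

def chkR (w w' : ℕ) (r' : ℕ) : ℕ → Bool
  | 0 => true
  | r + 1 => ((((w >>> r) ^^^ (w' >>> r')) % 2 ^ 25) != 0) && chkR w w' r' r

def chkRR (w w' : ℕ) : ℕ → Bool
  | 0 => true
  | r' + 1 => chkR w w' r' r' && chkRR w w' r'

theorem chkR_sound (w w' r' : ℕ) : ∀ n, chkR w w' r' n = true → ∀ r < n,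
    ((w >>> r) ^^^ (w' >>> r')) % 2 ^ 25 ≠ 0 := by
  intro n
  induction n with
  | zero => intro _ r hr; omega
  | succ n ih =>
    intro h r hr
    rw [chkR, Bool.and_eq_true, bne_iff_ne] at h
    rcases Nat.lt_succ_iff_lt_or_eq.mp hr with h' | h'
    · exact ih h.2 r h'
    · subst h'; exact h.1

theorem chkRR_sound (w w' : ℕ) : ∀ n, chkRR w w' n = true → ∀ r' < n, ∀ r < r',
    ((w >>> r) ^^^ (w' >>> r')) % 2 ^ 25 ≠ 0 := by
  intro n
  induction n with
  | zero => intro _ r hr; omega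
  | succ n ih =>
    intro h r' hr'
    rw [chkRR, Bool.and_eq_true] at h
    rcases Nat.lt_succ_iff_lt_or_eq.mp hr' with h' | h'
    · exact ih h.2 r' h'
    · subst h'; exact chkR_sound w w' r' r' h.1

theorem sync_chk : ∀ a b c d : Fin 3, a ≠ b → c ≠ d → chkRR (wB a b 0) (wB c d 0) 36 = true := by
  decide +kernel

theorem winB_sync (a b c d : Fin 3) (hab : a ≠ b) (hcd : c ≠ d) (r : ℕ) (hr : r < 36) (r' : ℕ)
    (hr' : r' < 36) (hne : r ≠ r') :
    ∃ j < 25, winB a b 0 (r + j) ≠ winB c d 0 (r' + j) := by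
  rcases Nat.lt_or_gt_of_ne hne with h | h
  · exact win_ne _ _ _ _ _ _ _ _ _ (chkRR_sound _ _ 36 (sync_chk a b c d hab hcd) r' hr' r h)
  · obtain ⟨j, hj, hj2⟩ := win_ne _ _ _ _ _ _ _ _ _
      (chkRR_sound _ _ 36 (sync_chk c d a b hcd hab) r hr r' h)
    exact ⟨j, hj, fun e => hj2 e.symm⟩

def chkP (w s : ℕ) : ℕ → Bool
  | 0 => true
  | p + 1 => ((((w >>> s) ^^^ (w >>> (s + (p + 1)))) % 2 ^ (4 * (p + 1) / 3 + 1)) != 0) &&
      chkP w s p

def chkS (w : ℕ) : ℕ → Bool
  | 0 => true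
  | s + 1 => chkP w s 18 && chkS w s

theorem chkP_sound (w s : ℕ) : ∀ n, chkP w s n = true → ∀ p ≤ n, 1 ≤ p →
    ((w >>> s) ^^^ (w >>> (s + p))) % 2 ^ (4 * p / 3 + 1) ≠ 0 := by
  intro n
  induction n with
  | zero => intro _ r hr; omega
  | succ n ih =>
    intro h p hp hp1
    rw [chkP, Bool.and_eq_true, bne_iff_ne] at h
    rcases Nat.lt_or_ge n p with h' | h'
    · obtain rfl : p = n + 1 := by omega
      exact h.1
    · exact ih h.2 p h' hp1

theorem chkS_sound (w : ℕ) : ∀ n, chkS w n = true → ∀ s < n, ∀ p ≤ 18, 1 ≤ p →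
    ((w >>> s) ^^^ (w >>> (s + p))) % 2 ^ (4 * p / 3 + 1) ≠ 0 := by
  intro n
  induction n with
  | zero => intro _ r hr; omega
  | succ n ih =>
    intro h s hs
    rw [chkS, Bool.and_eq_true] at h
    rcases Nat.lt_succ_iff_lt_or_eq.mp hs with h' | h'
    · exact ih h.2 s h'
    · subst h'; exact chkP_sound w s 18 h.1

theorem short_chk : ∀ a b c : Fin 3, a ≠ b → b ≠ c → chkS (wB a b c) 36 = true := by
  decide +kernel

theorem winB_short (a b c : Fin 3) (hab : a ≠ b) (hbc : b ≠ c) (s : ℕ) (hs : s < 36) (p : ℕ)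
    (hp : p < 19) (hp1 : 1 ≤ p) :
    ∃ j < 25, 3 * j ≤ 4 * p ∧ winB a b c (s + j) ≠ winB a b c (s + j + p) := by
  obtain ⟨j, hj, hj2⟩ := win_ne a b c a b c s (s + p) _
    (chkS_sound _ 36 (short_chk a b c hab hbc) s hs p (by omega) hp1)
  refine ⟨j, by omega, by omega, ?_⟩
  rwa [show s + j + p = s + p + j by omega]

theorem gB_inj : ∀ a b : Fin 3, gB a 16 = gB b 16 → gB a 17 = gB b 17 → a = b := by
  decide +kernel

theorem winB_0101 : ∀ a b : Fin 3, a ≠ b → ∀ r < 36,
    ¬ (winB a b 0 r = 0 ∧ winB a b 0 (r + 1) = 1 ∧ winB a b 0 (r + 2) = 0 ∧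
      winB a b 0 (r + 3) = 1) := by decide +kernel

theorem U_sync (s s' : ℕ) (h : ∀ j < 25, U (s + j) = U (s' + j)) : s % 36 = s' % 36 := by
  by_contra hne
  obtain ⟨j, hj, hj2⟩ := winB_sync (Om (s / 36)) (Om (s / 36 + 1)) (Om (s' / 36))
    (Om (s' / 36 + 1)) (Om_ne _) (Om_ne _) (s % 36) (Nat.mod_lt _ (by norm_num)) (s' % 36)
    (Nat.mod_lt _ (by norm_num)) hne
  apply hj2
  rw [← U_win2 _ _ (by omega), ← U_win2 _ _ (by omega)]
  have := h j hj
  rw [show 36 * (s / 36) + (s % 36 + j) = s + j by omega,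
    show 36 * (s' / 36) + (s' % 36 + j) = s' + j by omega]
  exact this

theorem E73_U : E73 U := by
  intro i p r hp hrun
  by_contra hcon
  rcases Nat.lt_or_ge p 19 with h19 | h19
  · obtain ⟨j, hj, hj2, hne⟩ := winB_short (Om (i / 36)) (Om (i / 36 + 1)) (Om (i / 36 + 2))
      (Om_ne _) (Om_ne _) (i % 36) (Nat.mod_lt _ (by norm_num)) p h19 hp
    apply hne
    rw [← U_win _ _ (by omega), ← U_win _ _ (by omega)]
    have := hrun j (by omega)
    rw [show 36 * (i / 36) + (i % 36 + j) = i + j by omega,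
      show 36 * (i / 36) + (i % 36 + j + p) = i + j + p by omega]
    exact this
  · have h1 := U_sync i (i + p) (fun j hj => by
      have := hrun j (by omega)
      rw [this]; congr 1; omega)
    obtain ⟨p', rfl⟩ : ∃ p', p = 36 * p' := ⟨p / 36, by omega⟩
    obtain ⟨j, hj, hne⟩ := Om_sqf ((i + 19) / 36) p' (by omega)
    apply hne
    apply gB_inj
    · rw [← U_rec _ 16 (by norm_num), ← U_rec _ 16 (by norm_num)]
      have := hrun (36 * ((i + 19) / 36 + j) + 16 - i) (by omega)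
      rw [show i + (36 * ((i + 19) / 36 + j) + 16 - i) = 36 * ((i + 19) / 36 + j) + 16 by omega,
        show 36 * ((i + 19) / 36 + j) + 16 + 36 * p' = 36 * ((i + 19) / 36 + p' + j) + 16 by
          omega] at this
      exact this
    · rw [← U_rec _ 17 (by norm_num), ← U_rec _ 17 (by norm_num)]
      have := hrun (36 * ((i + 19) / 36 + j) + 17 - i) (by omega)
      rw [show i + (36 * ((i + 19) / 36 + j) + 17 - i) = 36 * ((i + 19) / 36 + j) + 17 by omega,
        show 36 * ((i + 19) / 36 + j) + 17 + 36 * p' = 36 * ((i + 19) / 36 + p' + j) + 17 by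
          omega] at this
      exact this

theorem U_0101 (i : ℕ) : ¬ At4 U i 0 1 0 1 := by
  rintro ⟨h0, h1, h2, h3⟩
  apply winB_0101 (Om (i / 36)) (Om (i / 36 + 1)) (Om_ne _) (i % 36) (Nat.mod_lt _ (by norm_num))
  rw [← U_win2 _ _ (by omega), ← U_win2 _ _ (by omega), ← U_win2 _ _ (by omega),
    ← U_win2 _ _ (by omega),
    show 36 * (i / 36) + i % 36 = i by omega, show 36 * (i / 36) + (i % 36 + 1) = i + 1 by omega,
    show 36 * (i / 36) + (i % 36 + 2) = i + 2 by omega,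
    show 36 * (i / 36) + (i % 36 + 3) = i + 3 by omega]
  exact ⟨h0, h1, h2, h3⟩

/-- `0101 U`. -/
def TB (i : ℕ) : Fin 2 := if i < 4 then (if i % 2 = 0 then 0 else 1) else U (i - 4)

theorem TB_U (i : ℕ) : TB (4 + i) = U i := by
  unfold TB
  rw [if_neg (by omega)]
  congr 1
  omega

/-- the first `76` letters of `TB`. -/
def preB (i : ℕ) : Fin 2 := if ((10 + (wB 2 0 1) * 16 : ℕ)).testBit i then 1 else 0

theorem preB_lt : ∀ i < 4, preB i = if i % 2 = 0 then 0 else 1 := by decide +kernel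
theorem preB_ge : ∀ i < 108, preB (4 + i) = winB 2 0 1 i := by decide +kernel

theorem TB_pre (i : ℕ) (hi : i < 112) : TB i = preB i := by
  rcases Nat.lt_or_ge i 4 with h | h
  · rw [preB_lt i h, TB, if_pos h]
  · obtain ⟨j, rfl⟩ := Nat.exists_eq_add_of_le h
    rw [TB_U, preB_ge j (by omega)]
    have := U_win 0 j (by omega)
    rw [Nat.mul_zero, Nat.zero_add, Nat.zero_add, Nat.zero_add] at this
    rw [this]
    have e1 : Om 1 = 0 := (Om_rec 0 1 (by norm_num)).trans rfl
    have e2 : Om 2 = 1 := (Om_rec 0 2 (by norm_num)).trans rfl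
    rw [Om_zero, e1, e2]

theorem FO_TB_fin : ∀ p < 4, 1 ≤ p → ∃ j < 4, preB j ≠ preB (j + p) := by decide +kernel

theorem FO_TB : FO TB 4 := by
  intro p hp h
  rcases Nat.lt_or_ge p 4 with h4 | h4
  · obtain ⟨j, hj, hne⟩ := FO_TB_fin p h4 hp
    apply hne
    rw [← TB_pre _ (by omega), ← TB_pre _ (by omega)]
    have := h j hj
    rwa [Nat.zero_add] at this
  · obtain ⟨p, rfl⟩ := Nat.exists_eq_add_of_le h4
    apply U_0101 p
    have h0 := h 0 (by omega)
    have h1 := h 1 (by omega)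
    have h2 := h 2 (by omega)
    have h3 := h 3 (by omega)
    rw [Nat.zero_add, Nat.zero_add, TB_U] at h0
    rw [Nat.zero_add, show 1 + (4 + p) = 4 + (p + 1) by omega, TB_U] at h1
    rw [Nat.zero_add, show 2 + (4 + p) = 4 + (p + 2) by omega, TB_U] at h2
    rw [Nat.zero_add, show 3 + (4 + p) = 4 + (p + 3) by omega, TB_U] at h3
    exact ⟨h0.symm, h1.symm, h2.symm, h3.symm⟩

theorem LC_TB_fin : ∀ p < 9, 1 ≤ p → ∃ j < 4, preB j ≠ preB (j + p) ∧ (p + j ≤ 4 ∨ 3 * j ≤ p) := by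
  decide +kernel

theorem LC_TB : LC TB 4 := by
  intro p r hp h
  have hr : r ≤ 3 := by
    by_contra hcon
    exact FO_TB p hp (h.mono (by omega))
  rcases Nat.lt_or_ge p 9 with h6 | h6
  · obtain ⟨j, hj, hne, hj2⟩ := LC_TB_fin p h6 hp
    have : r ≤ j := by
      by_contra hcon
      apply hne
      have := h j (by omega)
      rw [← TB_pre _ (by omega), ← TB_pre _ (by omega)]
      rwa [Nat.zero_add] at this
    omega
  · omega

theorem E73_TB_fin : ∀ i < 4, ∀ p < 22, 1 ≤ p → ∃ j < 29, 3 * j ≤ 4 * p ∧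
    preB (i + j) ≠ preB (i + j + p) := by decide +kernel

theorem gB_last : ∀ a : Fin 3, gB a 35 = 0 := by decide +kernel

theorem E73_TB : E73 TB := by
  intro i p r hp hrun
  by_contra hcon
  rcases Nat.lt_or_ge i 4 with hi | hi
  · rcases Nat.lt_or_ge (i + r) 29 with hr | hr
    · obtain ⟨j, hj, hj2, hne⟩ := E73_TB_fin i hi p (by omega) hp
      apply hne
      rw [← TB_pre _ (by omega), ← TB_pre _ (by omega)]
      exact hrun j (by omega)
    · have h1 := U_sync 0 p (fun j hj => by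
        have := hrun (4 - i + j) (by omega)
        rw [show i + (4 - i + j) = 4 + j by omega, show 4 + j + p = 4 + (p + j) by omega,
          TB_U, TB_U] at this
        rwa [Nat.zero_add])
      have h3 := hrun (3 - i) (by omega)
      rw [show i + (3 - i) = 3 by omega, show 3 + p = 4 + (36 * (p / 36 - 1) + 35) by omega, TB_U,
        U_rec _ _ (by norm_num), gB_last] at h3
      exact absurd h3 (by decide)
  · obtain ⟨i, rfl⟩ := Nat.exists_eq_add_of_le hi
    apply hcon
    apply E73_U i p r hp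
    intro j hj
    have := hrun j hj
    rwa [add_assoc, TB_U, add_assoc, TB_U] at this

/-- occurrence of six letters. -/
def At6 (z : ℕ → Fin 2) (i : ℕ) (w : Fin 6 → Fin 2) : Prop := ∀ j : Fin 6, z (i + j) = w j

theorem gB_001001 : ∀ a : Fin 3, ∃ r < 30, ∀ j : Fin 6, gB a (r + j) = ![0, 0, 1, 0, 0, 1] j := by
  decide +kernel

theorem gB_110110 : ∀ a : Fin 3, ∃ r < 30, ∀ j : Fin 6, gB a (r + j) = ![1, 1, 0, 1, 1, 0] j := by
  decide +kernel

theorem TB_rec1 (N : ℕ) : ∃ i, N ≤ i ∧ At6 TB i ![0, 0, 1, 0, 0, 1] := by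
  obtain ⟨r, hr, h⟩ := gB_001001 (Om N)
  refine ⟨4 + (36 * N + r), by omega, fun j => ?_⟩
  have hj := j.isLt
  rw [add_assoc, TB_U, add_assoc, U_rec _ _ (by omega), h]

theorem TB_rec2 (N : ℕ) : ∃ i, N ≤ i ∧ At6 TB i ![1, 1, 0, 1, 1, 0] := by
  obtain ⟨r, hr, h⟩ := gB_110110 (Om N)
  refine ⟨4 + (36 * N + r), by omega, fun j => ?_⟩
  have hj := j.isLt
  rw [add_assoc, TB_U, add_assoc, U_rec _ _ (by omega), h]

end Pool.Agent.BPF
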