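import Pool.Agent.BPF.Exit

/-!
# The Thue-Morse word
-/

set_option autoImplicit false

namespace Pool.Agent.BPF

/-- approximations of the Thue-Morse word. -/
def tA : ℕ → ℕ → Fin 2
  | 0, _ => 0
  | k + 1, n => tA k (n / 2) + (if n % 2 = 0 then 0 else 1)

theorem tA_zero (k : ℕ) : tA k 0 = 0 := by
  induction k with
  | zero => rfl
  | succ k ih => rw [tA, Nat.zero_div, ih]; rfl

theorem tA_succ (k : ℕ) : ∀ n, n < 2 ^ k → tA (k + 1) n = tA k n := by
  induction k with
  | zero =>
    intro n hn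
    obtain rfl : n = 0 := by simpa using hn
    rw [tA_zero, tA_zero]
  | succ k ih =>
    intro n hn
    change tA (k + 1) (n / 2) + _ = tA k (n / 2) + _
    rw [ih (n / 2) (by rw [pow_succ] at hn; omega)]

theorem tA_stable (k l : ℕ) (hkl : k ≤ l) (n : ℕ) (hn : n < 2 ^ k) : tA l n = tA k n := by
  induction l, hkl using Nat.le_induction with
  | base => rfl
  | succ l hl ih =>
    rw [tA_succ l n (hn.trans_le (Nat.pow_le_pow_right (by norm_num) hl)), ih]

/-- the Thue-Morse word. -/
def t (n : ℕ) : Fin 2 := tA n n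

theorem t_eq (k n : ℕ) (hn : n < 2 ^ k) : t n = tA k n := by
  have h1 : n < 2 ^ n := Nat.lt_pow_self (by norm_num)
  rcases le_total k n with h | h
  · exact tA_stable k n h n hn
  · exact (tA_stable n k h n h1).symm

theorem t_even (q : ℕ) : t (2 * q) = t q := by
  have h1 : q < 2 ^ q := Nat.lt_pow_self (by norm_num)
  rw [t_eq (q + 1) (2 * q) (by rw [pow_succ]; omega), tA, t_eq q q h1,
    if_pos (by omega), add_zero]
  congr 1
  omega

theorem t_odd (q : ℕ) : t (2 * q + 1) = t q + 1 := by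
  have h1 : q < 2 ^ q := Nat.lt_pow_self (by norm_num)
  rw [t_eq (q + 1) (2 * q + 1) (by rw [pow_succ]; omega), tA, t_eq q q h1, if_neg (by omega)]
  congr 2
  omega

theorem fin2_ne : ∀ a : Fin 2, a ≠ a + 1 := by decide
theorem fin2_ne' : ∀ a b : Fin 2, a ≠ b → b = a + 1 := by decide

/-- double letters of `t` occur at odd positions. -/
theorem t_double (i : ℕ) (h : t i = t (i + 1)) : i % 2 = 1 := by
  by_contra hcon
  obtain ⟨q, rfl⟩ : ∃ q, i = 2 * q := ⟨i / 2, by omega⟩
  rw [t_even, t_odd] at h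
  exact fin2_ne _ h

theorem t_no3 (i : ℕ) (h1 : t i = t (i + 1)) (h2 : t (i + 1) = t (i + 2)) : False := by
  have := t_double i h1
  have := t_double (i + 1) h2
  omega

theorem fin2_alt : ∀ a b c : Fin 2, a ≠ b → b ≠ c → a = c := by decide

/-- no alternating factor of length five. -/
theorem t_no_alt5 (i : ℕ) (h0 : t i ≠ t (i + 1)) (h1 : t (i + 1) ≠ t (i + 2))
    (h2 : t (i + 2) ≠ t (i + 3)) (h3 : t (i + 3) ≠ t (i + 4)) : False := by
  have e1 := fin2_alt _ _ _ h0 h1
  have e2 := fin2_alt _ _ _ h1 h2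
  have e3 := fin2_alt _ _ _ h2 h3
  rcases Nat.even_or_odd' i with ⟨q, rfl | rfl⟩
  · rw [t_even, show 2 * q + 2 = 2 * (q + 1) by ring, t_even] at e1
    rw [show 2 * q + 2 = 2 * (q + 1) by ring, t_even,
      show 2 * q + 4 = 2 * (q + 2) by ring, t_even] at e3
    exact t_no3 q e1 e3
  · rw [show 2 * q + 1 + 1 = 2 * (q + 1) by ring, t_even,
      show 2 * q + 1 + 3 = 2 * (q + 2) by ring, t_even] at e2
    rw [t_odd, show 2 * q + 1 + 2 = 2 * (q + 1) + 1 by ring, t_odd] at e1
    have e1' := add_right_cancel e1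
    exact t_no3 q e1' e2

/-- the Thue-Morse word is overlap-free. -/
theorem t_overlap (p : ℕ) : ∀ i, 1 ≤ p → ¬ Run t i p (p + 1) := by
  induction p using Nat.strong_induction_on with
  | _ p ih =>
    intro i hp hrun
    rcases Nat.even_or_odd' p with ⟨q, rfl | rfl⟩
    · rcases Nat.even_or_odd' i with ⟨k, rfl | rfl⟩
      · apply ih q (by omega) k (by omega)
        intro j hj
        have := hrun (2 * j) (by omega)
        rw [show 2 * k + 2 * j = 2 * (k + j) by ring,
          show 2 * (k + j) + 2 * q = 2 * (k + j + q) by ring, t_even, t_even] at this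
        exact this
      · apply ih q (by omega) k (by omega)
        intro j hj
        have := hrun (2 * j) (by omega)
        rw [show 2 * k + 1 + 2 * j = 2 * (k + j) + 1 by ring,
          show 2 * (k + j) + 1 + 2 * q = 2 * (k + j + q) + 1 by ring, t_odd, t_odd] at this
        exact add_right_cancel this
    · -- odd period
      have key : ∀ a, a + 1 < 2 * q + 2 → t (i + a) ≠ t (i + a + 1) := by
        intro a ha h
        have h1 := t_double _ h
        have e1 := hrun a (by omega)
        have e2 := hrun (a + 1) (by omega)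
        rw [← add_assoc] at e2
        have h2 : t (i + a + (2 * q + 1)) = t (i + a + (2 * q + 1) + 1) := by
          rw [← e1, h, e2]
          congr 1
          omega
        have h3 := t_double _ h2
        omega
      rcases Nat.lt_or_ge q 2 with hq | hq
      · interval_cases q
        · exact key 0 (by omega) (by simpa using hrun 0 (by omega))
        · have k0 := key 0 (by omega)
          have k1 := key 1 (by omega)
          have k2 := key 2 (by omega)
          have r0 := hrun 0 (by omega)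
          norm_num at k0 k1 k2 r0
          have := fin2_alt _ _ _ k0 (by simpa [add_assoc] using k1)
          rw [r0] at this
          apply k2
          rw [← this]
      · apply t_no_alt5 i
        · simpa using key 0 (by omega)
        · simpa [add_assoc] using key 1 (by omega)
        · simpa [add_assoc] using key 2 (by omega)
        · simpa [add_assoc] using key 3 (by omega)

theorem t_block (k : ℕ) : ∀ q r, r < 2 ^ k → t (2 ^ k * q + r) = t q + t r := by
  induction k with
  | zero =>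
    intro q r hr
    obtain rfl : r = 0 := by simpa using hr
    rw [pow_zero, one_mul, add_zero]
    exact (add_zero _).symm
  | succ k ih =>
    intro q r hr
    have h2 : 2 ^ (k + 1) = 2 * 2 ^ k := by rw [pow_succ]; ring
    rcases Nat.even_or_odd' r with ⟨r', rfl | rfl⟩
    · rw [h2, show 2 * 2 ^ k * q + 2 * r' = 2 * (2 ^ k * q + r') by ring, t_even, t_even,
        ih q r' (by omega)]
    · rw [h2, show 2 * 2 ^ k * q + (2 * r' + 1) = 2 * (2 ^ k * q + r') + 1 by ring, t_odd, t_odd,
        ih q r' (by omega), add_assoc]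

theorem t_rev (k : ℕ) : ∀ j, j < 2 ^ k → t (2 ^ k - 1 - j) = t j + (if k % 2 = 0 then 0 else 1) := by
  induction k with
  | zero =>
    intro j hj
    obtain rfl : j = 0 := by simpa using hj
    rfl
  | succ k ih =>
    intro j hj
    have h2 : 2 ^ (k + 1) = 2 * 2 ^ k := by rw [pow_succ]; ring
    have h11 : (1 : Fin 2) + 1 = 0 := rfl
    rcases Nat.even_or_odd' j with ⟨r', rfl | rfl⟩
    · rw [show 2 ^ (k + 1) - 1 - 2 * r' = 2 * (2 ^ k - 1 - r') + 1 by omega, t_odd, t_even,
        ih r' (by omega)]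
      by_cases hk : k % 2 = 0
      · rw [if_pos hk, if_neg (by omega), add_zero]
      · rw [if_neg hk, if_pos (by omega), add_assoc, h11]
    · rw [show 2 ^ (k + 1) - 1 - (2 * r' + 1) = 2 * (2 ^ k - 1 - r') by omega, t_odd, t_even,
        ih r' (by omega)]
      by_cases hk : k % 2 = 0
      · rw [if_pos hk, if_neg (by omega), add_zero, add_assoc, h11, add_zero]
      · rw [if_neg hk, if_pos (by omega), add_zero]

theorem t_pal (k j : ℕ) (hj : j < 4 ^ k) : t (4 ^ k - 1 - j) = t j := by
  have h4 : 4 ^ k = 2 ^ (2 * k) := by rw [pow_mul]; norm_num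
  rw [h4] at hj ⊢
  rw [t_rev (2 * k) j hj, if_pos (by omega), add_zero]

/-- occurrence of a word given by four letters. -/
def At4 (z : ℕ → Fin 2) (i : ℕ) (a b c d : Fin 2) : Prop :=
  z i = a ∧ z (i + 1) = b ∧ z (i + 2) = c ∧ z (i + 3) = d

theorem t_at4 : ∀ c : Fin 2, ∃ r < 12, c + t r = 0 ∧ c + t (r + 1) = 1 ∧ c + t (r + 2) = 0 ∧
    c + t (r + 3) = 1 := by decide +kernel

theorem t_at4' : ∀ c : Fin 2, ∃ r < 12, c + t r = 1 ∧ c + t (r + 1) = 0 ∧ c + t (r + 2) = 1 ∧
    c + t (r + 3) = 0 := by decide +kernel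

theorem t_rec0101 (N : ℕ) : ∃ i, N ≤ i ∧ At4 t i 0 1 0 1 := by
  obtain ⟨r, hr, h0, h1, h2, h3⟩ := t_at4 (t N)
  refine ⟨2 ^ 4 * N + r, by omega, ?_, ?_, ?_, ?_⟩
  · rw [t_block 4 N r (by omega), h0]
  · rw [add_assoc, t_block 4 N _ (by omega), h1]
  · rw [add_assoc, t_block 4 N _ (by omega), h2]
  · rw [add_assoc, t_block 4 N _ (by omega), h3]

theorem t_rec1010 (N : ℕ) : ∃ i, N ≤ i ∧ At4 t i 1 0 1 0 := by
  obtain ⟨r, hr, h0, h1, h2, h3⟩ := t_at4' (t N)
  refine ⟨2 ^ 4 * N + r, by omega, ?_, ?_, ?_, ?_⟩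
  · rw [t_block 4 N r (by omega), h0]
  · rw [add_assoc, t_block 4 N _ (by omega), h1]
  · rw [add_assoc, t_block 4 N _ (by omega), h2]
  · rw [add_assoc, t_block 4 N _ (by omega), h3]

/-! ### The Thue-Morse word with a flipped letter -/

/-- the shift `t[c..)` with its first letter replaced by `0`. -/
def fl (c i : ℕ) : Fin 2 := if i = 0 then 0 else t (i + c)

theorem fl_pos (c i : ℕ) (hi : 1 ≤ i) : fl c i = t (i + c) := by
  unfold fl
  rw [if_neg (by omega)]

theorem fl_run (c i p r : ℕ) (hi : 1 ≤ i) (hp : 1 ≤ p) (h : Run (fl c) i p r) : r ≤ p := by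
  by_contra hcon
  apply t_overlap p (i + c) hp
  intro j hj
  have := h j (by omega)
  rw [fl_pos _ _ (by omega), fl_pos _ _ (by omega)] at this
  convert this using 2 <;> omega

/-- `0 t[9..) = 000 1 0 1 1 0 1 0 0 1 …` -/
def TA : ℕ → Fin 2 := fl 8

/-- `0010 t = 001001 1 0 1 0 0 1 …` -/
def TC (i : ℕ) : Fin 2 := if i < 4 then (if i = 2 then 1 else 0) else t (i - 4)

theorem TC_t (i : ℕ) : TC (4 + i) = t i := by
  unfold TC
  rw [if_neg (by omega)]
  congr 1
  omega

theorem FO_TA : FO TA 3 := by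
  intro p hp h
  have h0 := h 0 (by omega)
  have h1 := h 1 (by omega)
  have h2 := h 2 (by omega)
  have e0 : TA 0 = 0 := rfl
  have e1 : TA 1 = 0 := by decide +kernel
  have e2 : TA 2 = 0 := by decide +kernel
  norm_num at h0 h1 h2
  rw [e0] at h0
  rw [e1] at h1
  rw [e2] at h2
  have k0 : t (p + 8) = 0 := by rw [← fl_pos 8 p hp]; exact h0.symm
  have k1 : t (p + 8 + 1) = 0 := by
    rw [show p + 8 + 1 = (1 + p) + 8 by omega, ← fl_pos 8 (1 + p) (by omega)]; exact h1.symm
  have k2 : t (p + 8 + 2) = 0 := by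
    rw [show p + 8 + 2 = (2 + p) + 8 by omega, ← fl_pos 8 (2 + p) (by omega)]; exact h2.symm
  exact t_no3 (p + 8) (by rw [k0, k1]) (by rw [k1, k2])

theorem LC_TA_fin : ∀ p < 6, 1 ≤ p → ∃ j < 3, TA j ≠ TA (j + p) ∧ (p + j ≤ 3 ∨ 3 * j ≤ p) := by
  decide +kernel

theorem LC_TA : LC TA 3 := by
  intro p r hp h
  have hr : r ≤ 2 := by
    by_contra hcon
    exact FO_TA p hp (h.mono (by omega))
  rcases Nat.lt_or_ge p 6 with h6 | h6
  · obtain ⟨j, hj, hne, hj2⟩ := LC_TA_fin p h6 hp
    have : r ≤ j := by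
      by_contra hcon
      apply hne
      have := h j (by omega)
      rwa [Nat.zero_add] at this
    omega
  · omega

theorem AF_TA {lam : ℚ} (hlam : 2 < lam) : AF lam TA := by
  intro i p r hp hr h
  have h1 : 2 * p < r := by
    have : (0 : ℚ) < p := by exact_mod_cast hp
    have h2 : (2 : ℚ) * p < r := by nlinarith
    exact_mod_cast h2
  rcases Nat.eq_zero_or_pos i with rfl | hi
  · exact FO_TA p hp (h.mono (by omega))
  · have := fl_run 8 i p r hi hp h
    omega

theorem FO_TC_fin : ∀ p < 4, 1 ≤ p → ∃ j < 6, TC j ≠ TC (j + p) := by decide +kernel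

theorem FO_TC : FO TC 6 := by
  intro p hp h
  rcases Nat.lt_or_ge p 4 with h4 | h4
  · obtain ⟨j, hj, hne⟩ := FO_TC_fin p h4 hp
    apply hne
    have := h j hj
    rwa [Nat.zero_add] at this
  · obtain ⟨p, rfl⟩ := Nat.exists_eq_add_of_le h4
    have h0 := h 0 (by omega)
    have h1 := h 1 (by omega)
    have h3 := h 3 (by omega)
    have h4 := h 4 (by omega)
    have e0 : TC 0 = 0 := rfl
    have e1 : TC 1 = 0 := rfl
    have e3 : TC 3 = 0 := rfl
    have e4 : TC 4 = 0 := by decide +kernel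
    rw [Nat.zero_add, Nat.zero_add, TC_t, e0] at h0
    rw [Nat.zero_add, show 1 + (4 + p) = 4 + (p + 1) by omega, TC_t, e1] at h1
    rw [Nat.zero_add, show 3 + (4 + p) = 4 + (p + 3) by omega, TC_t, e3] at h3
    rw [Nat.zero_add, show 4 + (4 + p) = 4 + (p + 3 + 1) by omega, TC_t, e4] at h4
    have d1 := t_double p (by rw [← h0, ← h1])
    have d2 := t_double (p + 3) (by rw [← h3, ← h4])
    omega

theorem LC_TC_fin : ∀ p < 15, 1 ≤ p → ∃ j < 6, TC j ≠ TC (j + p) ∧ (p + j ≤ 6 ∨ 3 * j ≤ p) := by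
  decide +kernel

theorem LC_TC : LC TC 6 := by
  intro p r hp h
  have hr : r ≤ 5 := by
    by_contra hcon
    exact FO_TC p hp (h.mono (by omega))
  rcases Nat.lt_or_ge p 15 with h6 | h6
  · obtain ⟨j, hj, hne, hj2⟩ := LC_TC_fin p h6 hp
    have : r ≤ j := by
      by_contra hcon
      apply hne
      have := h j (by omega)
      rwa [Nat.zero_add] at this
    omega
  · omega

/-- exponents are at most `7/3`. -/
def E73 (z : ℕ → Fin 2) : Prop := ∀ i p r : ℕ, 1 ≤ p → Run z i p r → 3 * r ≤ 4 * p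

theorem E73.af {z : ℕ → Fin 2} (h : E73 z) {lam : ℚ} (hlam : 4 / 3 < lam) : AF lam z := by
  intro i p r hp hr hrun
  have h1 := h i p r hp hrun
  have h2 : (0 : ℚ) < p := by exact_mod_cast hp
  have h3 : (3 : ℚ) * r ≤ 4 * p := by exact_mod_cast h1
  nlinarith

theorem t_run (i p r : ℕ) (hp : 1 ≤ p) (h : Run t i p r) : r ≤ p := by
  by_contra hcon
  exact t_overlap p i hp (h.mono (by omega))

theorem E73_TC_fin : ∀ i < 4, ∀ p < 12, 1 ≤ p → ∃ j < 16, TC (i + j) ≠ TC (i + j + p) ∧
    3 * j ≤ 4 * p := by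
  decide +kernel

theorem E73_TC : E73 TC := by
  intro i p r hp h
  rcases Nat.lt_or_ge i 4 with hi | hi
  · by_contra hcon
    have hr : r - (4 - i) ≤ p := by
      apply t_run 0 p _ hp
      intro j hj
      have := h (4 - i + j) (by omega)
      rw [show i + (4 - i + j) = 4 + j by omega, show 4 + j + p = 4 + (j + p) by omega, TC_t,
        TC_t] at this
      rwa [Nat.zero_add]
    obtain ⟨j, hj, hne, hj2⟩ := E73_TC_fin i hi p (by omega) hp
    exact hne (h j (by omega))
  · obtain ⟨i, rfl⟩ := Nat.exists_eq_add_of_le hi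
    have : r ≤ p := by
      apply t_run i p r hp
      intro j hj
      have := h j hj
      rwa [add_assoc, TC_t, add_assoc, TC_t] at this
    omega

end Pool.Agent.BPF
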