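import Pool.Agent.BPF.Exit
import Pool.Agent.BPF.TM
import Pool.Agent.BPF.TB

/-!
# Binary words: making `001001` recurrent.
-/

set_option autoImplicit false

namespace Pool.Agent.BPF

/-- the word `w` occurs in `z` at position `i`. -/
def At (z : ℕ → Fin 2) : ℕ → List (Fin 2) → Prop
  | _, [] => True
  | i, a :: w => z i = a ∧ At z (i + 1) w

/-- recurrent factors. -/
def Rec (z : ℕ → Fin 2) (w : List (Fin 2)) : Prop := ∀ M, ∃ i, M ≤ i ∧ At z i w

/-- complement. -/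
def co (z : ℕ → Fin 2) (i : ℕ) : Fin 2 := z i + 1

theorem co_co (z : ℕ → Fin 2) : co (co z) = z := by
  funext i
  unfold co
  generalize z i = a
  revert a
  decide

theorem At.co {z : ℕ → Fin 2} : ∀ {w : List (Fin 2)} {i : ℕ}, At z i w →
    At (co z) i (w.map (· + 1)) := by
  intro w
  induction w with
  | nil => intro i _; trivial
  | cons a w ih =>
    intro i h
    refine ⟨?_, ih h.2⟩
    unfold Pool.Agent.BPF.co
    rw [h.1]

theorem Rec.co {z : ℕ → Fin 2} {w : List (Fin 2)} (h : Rec z w) :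
    Rec (co z) (w.map (· + 1)) := by
  intro M
  obtain ⟨i, hi, hA⟩ := h M
  exact ⟨i, hi, hA.co⟩

theorem AF.co {lam : ℚ} {z : ℕ → Fin 2} (h : AF lam z) : AF lam (co z) := by
  intro i p r hp hr hrun
  apply h i p r hp hr
  intro j hj
  exact add_right_cancel (hrun j hj)

theorem At.shift {z τ : ℕ → Fin 2} {c : ℕ} (hz : ∀ i, z (c + i) = τ i) :
    ∀ {w : List (Fin 2)} {i : ℕ}, At τ i w → At z (c + i) w := by
  intro w
  induction w with
  | nil => intro i _; trivial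
  | cons a w ih =>
    intro i h
    refine ⟨?_, ?_⟩
    · rw [hz, h.1]
    · have := ih h.2
      rwa [← add_assoc] at this

theorem Rec.shift {z τ : ℕ → Fin 2} {c : ℕ} (hz : ∀ i, z (c + i) = τ i) {w : List (Fin 2)}
    (h : Rec τ w) : Rec z w := by
  intro M
  obtain ⟨i, hi, hA⟩ := h M
  exact ⟨c + i, by omega, hA.shift hz⟩

theorem splice_ge (x τ : ℕ → Fin 2) (i0 i : ℕ) : splice x τ i0 (i0 + i) = τ i := by
  unfold splice
  rw [if_neg (by omega)]
  congr 1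
  omega

/-- from `x` one can reach, keeping the first `N` letters, a word with the recurrent factor `w`. -/
def Reach (lam : ℚ) (x : ℕ → Fin 2) (N : ℕ) (w : List (Fin 2)) : Prop :=
  ∃ x', AF lam x' ∧ (∀ i, i < N → x' i = x i) ∧ Rec x' w

theorem step {lam : ℚ} (hlam : 4 / 3 < lam) {x τ : ℕ → Fin 2} {l : ℕ} (hx : AF lam x)
    (hτ : AF lam τ) (hfo : FO τ l) (hlc : LC τ l) (hrec : ∀ N, ∃ i, N ≤ i ∧ Occ x τ l i)
    {w : List (Fin 2)} (hw : Rec τ w) (N : ℕ) : Reach lam x N w := by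
  obtain ⟨i0, hi0, hz⟩ := exit hlam hx hτ hfo hlc hrec N
  refine ⟨_, hz, ?_, hw.shift (splice_ge x τ i0)⟩
  intro i hi
  unfold splice
  rw [if_pos (by omega)]

theorem stepc {lam : ℚ} (hlam : 4 / 3 < lam) {x τ : ℕ → Fin 2} {l : ℕ} (hx : AF lam x)
    (hτ : AF lam τ) (hfo : FO τ l) (hlc : LC τ l) (hrec : ∀ N, ∃ i, N ≤ i ∧ Occ (co x) τ l i)
    {w : List (Fin 2)} (hw : Rec τ w) (N : ℕ) : Reach lam x N (w.map (· + 1)) := by
  obtain ⟨x', h1, h2, h3⟩ := step hlam hx.co hτ hfo hlc hrec hw N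
  refine ⟨co x', h1.co, ?_, h3.co⟩
  intro i hi
  rw [← co_co x]
  unfold co
  rw [h2 i hi]
  rfl

theorem Reach.trans {lam : ℚ} {x : ℕ → Fin 2} {N : ℕ} {w w' : List (Fin 2)}
    (h : Reach lam x N w) (h' : ∀ y, AF lam y → Rec y w → Reach lam y N w') :
    Reach lam x N w' := by
  obtain ⟨y, h1, h2, h3⟩ := h
  obtain ⟨z, k1, k2, k3⟩ := h' y h1 h3
  exact ⟨z, k1, fun i hi => (k2 i hi).trans (h2 i hi), k3⟩

theorem Rec.head {z : ℕ → Fin 2} {a : Fin 2} {w : List (Fin 2)} (h : Rec z (a :: w)) :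
    Rec z w := by
  intro M
  obtain ⟨i, hi, hA⟩ := h M
  exact ⟨i + 1, by omega, hA.2⟩

theorem At.append {z : ℕ → Fin 2} : ∀ {w : List (Fin 2)} {i : ℕ}, At z i w →
    At z i (w ++ [z (i + w.length)]) := by
  intro w
  induction w with
  | nil => intro i _; exact ⟨rfl, trivial⟩
  | cons a w ih =>
    intro i h
    refine ⟨h.1, ?_⟩
    have := ih h.2
    rwa [show i + 1 + w.length = i + (a :: w).length by rw [List.length_cons]; omega] at this

theorem Rec.append {z : ℕ → Fin 2} {w : List (Fin 2)} (h : Rec z w) :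
    Rec z (w ++ [0]) ∨ Rec z (w ++ [1]) := by
  by_contra hcon
  unfold Rec at hcon
  push Not at hcon
  obtain ⟨⟨M0, h0⟩, ⟨M1, h1⟩⟩ := hcon
  obtain ⟨i, hi, hA⟩ := h (M0 + M1)
  have := hA.append
  generalize z (i + w.length) = a at this
  revert this
  fin_cases a
  · exact h0 i (by omega)
  · exact h1 i (by omega)

/-! ### the patterns in the tails -/

theorem rec_t1 : Rec t [0, 1, 0, 1] := by
  intro M
  obtain ⟨i, hi, h0, h1, h2, h3⟩ := t_rec0101 M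
  exact ⟨i, hi, h0, h1, h2, h3, trivial⟩

theorem rec_t2 : Rec t [1, 0, 1, 0] := by
  intro M
  obtain ⟨i, hi, h0, h1, h2, h3⟩ := t_rec1010 M
  exact ⟨i, hi, h0, h1, h2, h3, trivial⟩

theorem rec_TC {w : List (Fin 2)} (h : Rec t w) : Rec TC w := h.shift TC_t

theorem rec_TA {w : List (Fin 2)} (h : Rec t w) : Rec TA w := by
  intro M
  obtain ⟨i, hi, hA⟩ := h (M + 9)
  obtain ⟨i, rfl⟩ : ∃ j, i = 9 + j := ⟨i - 9, by omega⟩
  refine ⟨1 + i, by omega, ?_⟩
  have e : ∀ i, TA (1 + i) = (fun j => t (9 + j)) i := by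
    intro i
    unfold TA
    rw [fl_pos _ _ (by omega)]
    show t (1 + i + 8) = t (9 + i)
    congr 1
    omega
  apply At.shift e
  clear e hi
  revert hA
  generalize i = k
  induction w generalizing k with
  | nil => intro _; trivial
  | cons a w ih =>
    intro hA
    exact ⟨hA.1, ih (fun M => by obtain ⟨i, hi, hA⟩ := h M; exact ⟨i + 1, by omega, hA.2⟩)
      (k + 1) hA.2⟩

theorem rec_TB1 : Rec TB [0, 0, 1, 0, 0, 1] := by
  intro M
  obtain ⟨i, hi, h⟩ := TB_rec1 M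
  exact ⟨i, hi, h 0, h 1, h 2, h 3, h 4, h 5, trivial⟩

theorem rec_TB2 : Rec TB [1, 1, 0, 1, 1, 0] := by
  intro M
  obtain ⟨i, hi, h⟩ := TB_rec2 M
  exact ⟨i, hi, h 0, h 1, h 2, h 3, h 4, h 5, trivial⟩

theorem Rec.occ {z τ : ℕ → Fin 2} {w : List (Fin 2)} (h : Rec z w)
    (hτ : At τ 0 w) : ∀ N, ∃ i, N ≤ i ∧ Occ z τ w.length i := by
  intro N
  obtain ⟨i, hi, hA⟩ := h N
  refine ⟨i, hi, ?_⟩
  have key : ∀ (w : List (Fin 2)) (i k : ℕ), At z i w → At τ k w →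
      ∀ j, j < w.length → z (i + j) = τ (k + j) := by
    intro w
    induction w with
    | nil => intro i k _ _ j hj; exact absurd hj (by simp)
    | cons a w ih =>
      intro i k h1 h2 j hj
      rcases Nat.eq_zero_or_pos j with rfl | hj0
      · rw [Nat.add_zero, Nat.add_zero, h1.1, h2.1]
      · have := ih (i + 1) (k + 1) h1.2 h2.2 (j - 1) (by rw [List.length_cons] at hj; omega)
        rwa [show i + 1 + (j - 1) = i + j by omega, show k + 1 + (j - 1) = k + j by omega] at this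
  intro j hj
  have := key w i 0 hA hτ j hj
  rwa [Nat.zero_add] at this

theorem At_TA : At TA 0 [0, 0, 0] := by
  refine ⟨?_, ?_, ?_, trivial⟩ <;> decide +kernel

theorem At_TB : At TB 0 [0, 1, 0, 1] := by
  refine ⟨?_, ?_, ?_, ?_, trivial⟩ <;> rfl

theorem At_TC : At TC 0 [0, 0, 1, 0, 0, 1] := by
  refine ⟨?_, ?_, ?_, ?_, ?_, ?_, trivial⟩ <;> decide +kernel

/-! ### the chain of exits -/

section chain
variable {lam : ℚ} (hlam : 4 / 3 < lam)
include hlam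

theorem reach_a {x : ℕ → Fin 2} (hx : AF lam x) (h : Rec x [0, 1, 0, 1]) (N : ℕ) :
    Reach lam x N [0, 0, 1, 0, 0, 1] :=
  step hlam hx (E73_TB.af hlam) FO_TB LC_TB (h.occ At_TB) rec_TB1 N

theorem reach_b {x : ℕ → Fin 2} (hx : AF lam x) (h : Rec x [1, 0, 1, 0]) (N : ℕ) :
    Reach lam x N [0, 0, 1, 0, 0, 1] := by
  have hc : Rec (co x) [0, 1, 0, 1] := h.co
  exact stepc hlam hx (E73_TB.af hlam) FO_TB LC_TB (hc.occ At_TB) rec_TB2 N

omit hlam in
theorem two_lt {x : ℕ → Fin 2} (hx : AF lam x) (h : Rec x [0, 0, 0]) : 2 < lam := by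
  by_contra hcon
  obtain ⟨i, -, h0, h1, h2, -⟩ := h 0
  apply hx i 1 2 le_rfl (by push_cast; linarith)
  intro j hj
  interval_cases j
  · rw [Nat.add_zero, h0, h1]
  · rw [h1, h2]

theorem reach_c {x : ℕ → Fin 2} (hx : AF lam x) (h : Rec x [0, 0, 0]) (N : ℕ) :
    Reach lam x N [0, 0, 1, 0, 0, 1] :=
  (step hlam hx (AF_TA (two_lt hx h)) FO_TA LC_TA (h.occ At_TA) (rec_TA rec_t1) N).trans
    fun _ hy hrec => reach_a hlam hy hrec N

theorem reach_d {x : ℕ → Fin 2} (hx : AF lam x) (h : Rec x [1, 1, 1]) (N : ℕ) :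
    Reach lam x N [0, 0, 1, 0, 0, 1] := by
  have hc : Rec (co x) [0, 0, 0] := h.co
  have h2 : Reach lam x N [0, 1, 0, 1] :=
    stepc hlam hx (AF_TA (two_lt hx.co hc)) FO_TA LC_TA (hc.occ At_TA) (rec_TA rec_t2) N
  exact h2.trans fun _ hy hrec => reach_a hlam hy hrec N

theorem reach_e {x : ℕ → Fin 2} (hx : AF lam x) (h : Rec x [0, 0, 1, 0, 0]) (N : ℕ) :
    Reach lam x N [0, 0, 1, 0, 0, 1] := by
  rcases h.append with h | h
  · exact reach_c hlam hx h.head.head.head N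
  · exact ⟨x, hx, fun _ _ => rfl, h⟩

theorem reach_f {x : ℕ → Fin 2} (hx : AF lam x) (h : Rec x [1, 1, 0, 1, 1]) (N : ℕ) :
    Reach lam x N [0, 0, 1, 0, 0, 1] := by
  rcases h.append with h | h
  · have hc : Rec (co x) [0, 0, 1, 0, 0, 1] := h.co
    have h2 : Reach lam x N [0, 1, 0, 1] :=
      stepc hlam hx (E73_TC.af hlam) FO_TC LC_TC (hc.occ At_TC) (rec_TC rec_t2) N
    exact h2.trans fun _ hy hrec => reach_a hlam hy hrec N
  · exact reach_d hlam hx h.head.head.head N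

end chain

/-! ### classification -/

def clsB (a b c d e : Fin 2) : Bool :=
  (b == 0 && c == 0 && d == 0) || (b == 1 && c == 1 && d == 1) ||
  (a == 0 && b == 1 && c == 0 && d == 1) || (b == 0 && c == 1 && d == 0 && e == 1) ||
  (a == 1 && b == 0 && c == 1 && d == 0) || (b == 1 && c == 0 && d == 1 && e == 0) ||
  (a == 0 && b == 0 && c == 1 && d == 0 && e == 0) ||
  (a == 1 && b == 1 && c == 0 && d == 1 && e == 1) || (b != d)

theorem clsB_true : ∀ a b c d e : Fin 2, clsB a b c d e = true := by decide +kernel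

theorem cls (a b c d e : Fin 2)
    (h1 : ¬ (b = 0 ∧ c = 0 ∧ d = 0)) (h2 : ¬ (b = 1 ∧ c = 1 ∧ d = 1))
    (h3 : ¬ (a = 0 ∧ b = 1 ∧ c = 0 ∧ d = 1)) (h4 : ¬ (b = 0 ∧ c = 1 ∧ d = 0 ∧ e = 1))
    (h5 : ¬ (a = 1 ∧ b = 0 ∧ c = 1 ∧ d = 0)) (h6 : ¬ (b = 1 ∧ c = 0 ∧ d = 1 ∧ e = 0))
    (h7 : ¬ (a = 0 ∧ b = 0 ∧ c = 1 ∧ d = 0 ∧ e = 0))
    (h8 : ¬ (a = 1 ∧ b = 1 ∧ c = 0 ∧ d = 1 ∧ e = 1)) : b ≠ d := by
  have h := clsB_true a b c d e
  unfold clsB at h
  simp only [Bool.or_eq_true, Bool.and_eq_true, beq_iff_eq, bne_iff_ne, and_assoc] at h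
  rcases h with (((((((h | h) | h) | h) | h) | h) | h) | h) | h
  · exact absurd h h1
  · exact absurd h h2
  · exact absurd h h3
  · exact absurd h h4
  · exact absurd h h5
  · exact absurd h h6
  · exact absurd h h7
  · exact absurd h h8
  · exact h

theorem fin2_three : ∀ a b c : Fin 2, a ≠ b → b ≠ c → c = a := by decide

theorem make_rec {lam : ℚ} (hlam : 4 / 3 < lam) {x : ℕ → Fin 2} (hx : AF lam x) (N : ℕ) :
    Reach lam x N [0, 0, 1, 0, 0, 1] := by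
  by_contra hcon
  have h1 : ¬ Rec x [0, 0, 0] := fun h => hcon (reach_c hlam hx h N)
  have h2 : ¬ Rec x [1, 1, 1] := fun h => hcon (reach_d hlam hx h N)
  have h3 : ¬ Rec x [0, 1, 0, 1] := fun h => hcon (reach_a hlam hx h N)
  have h4 : ¬ Rec x [1, 0, 1, 0] := fun h => hcon (reach_b hlam hx h N)
  have h5 : ¬ Rec x [0, 0, 1, 0, 0] := fun h => hcon (reach_e hlam hx h N)
  have h6 : ¬ Rec x [1, 1, 0, 1, 1] := fun h => hcon (reach_f hlam hx h N)
  unfold Rec at h1 h2 h3 h4 h5 h6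
  push Not at h1 h2 h3 h4 h5 h6
  obtain ⟨n1, h1⟩ := h1
  obtain ⟨n2, h2⟩ := h2
  obtain ⟨n3, h3⟩ := h3
  obtain ⟨n4, h4⟩ := h4
  obtain ⟨n5, h5⟩ := h5
  obtain ⟨n6, h6⟩ := h6
  set B := n1 + n2 + n3 + n4 + n5 + n6 with hB
  have hne : ∀ i, B ≤ i → x (i + 1) ≠ x (i + 3) := by
    intro i hi
    apply cls (x i) (x (i + 1)) (x (i + 2)) (x (i + 3)) (x (i + 4))
    · rintro ⟨a, b, c⟩
      exact h1 (i + 1) (by omega) ⟨a, b, c, trivial⟩
    · rintro ⟨a, b, c⟩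
      exact h2 (i + 1) (by omega) ⟨a, b, c, trivial⟩
    · rintro ⟨a, b, c, d⟩
      exact h3 i (by omega) ⟨a, b, c, d, trivial⟩
    · rintro ⟨a, b, c, d⟩
      exact h3 (i + 1) (by omega) ⟨a, b, c, d, trivial⟩
    · rintro ⟨a, b, c, d⟩
      exact h4 i (by omega) ⟨a, b, c, d, trivial⟩
    · rintro ⟨a, b, c, d⟩
      exact h4 (i + 1) (by omega) ⟨a, b, c, d, trivial⟩
    · rintro ⟨a, b, c, d, e⟩
      exact h5 i (by omega) ⟨a, b, c, d, e, trivial⟩
    · rintro ⟨a, b, c, d, e⟩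
      exact h6 i (by omega) ⟨a, b, c, d, e, trivial⟩
  obtain ⟨r, hr⟩ := exists_nat_ge (lam * ((4 : ℕ) : ℚ))
  apply hx (B + 1) 4 r (by norm_num) hr
  intro j _
  have k1 := hne (B + j) (by omega)
  have k2 := hne (B + j + 2) (by omega)
  have := fin2_three _ _ _ k1 k2
  rw [show B + 1 + j = B + j + 1 by omega, show B + j + 1 + 4 = B + j + 2 + 3 by omega]
  exact this.symm

/-- every infinite word can be continued by `TC` after an arbitrarily long prefix. -/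
theorem tail {lam : ℚ} (hlam : 4 / 3 < lam) {x : ℕ → Fin 2} (hx : AF lam x) (N : ℕ) :
    ∃ (x' : ℕ → Fin 2) (a : ℕ), (∀ i, i < N → x' i = x i) ∧ N ≤ a ∧ AF lam (splice x' TC a) := by
  obtain ⟨x', h1, h2, h3⟩ := make_rec hlam hx N
  obtain ⟨a, ha, hz⟩ := exit hlam h1 (E73_TC.af hlam) FO_TC LC_TC (h3.occ At_TC) N
  exact ⟨x', a, h2, ha, hz⟩

end Pool.Agent.BPF
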