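import Mathlib

/-!
# Power-free words with exponent bound larger than `7/3`: the context-free exit lemma
-/

set_option autoImplicit false

namespace Pool.Agent.BPF

variable {S : Type*}

/-- the factor of length `p + r` at position `i` has period `p`. -/
def Run (z : ℕ → S) (i p r : ℕ) : Prop := ∀ j, j < r → z (i + j) = z (i + j + p)

/-- no factor `y` with a period `p` and `|y| - p ≥ lam p`, i.e. `|y| / p ≥ lam + 1`. -/
def AF (lam : ℚ) (z : ℕ → S) : Prop := ∀ i p r : ℕ, 1 ≤ p → lam * p ≤ r → ¬ Run z i p r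

theorem Run.mono {z : ℕ → S} {i p r r' : ℕ} (h : Run z i p r) (hr : r' ≤ r) : Run z i p r' :=
  fun j hj => h j (hj.trans_le hr)

theorem Run.shift {z : ℕ → S} {i p r : ℕ} (h : Run z i p r) (k : ℕ) : Run z (i + k) p (r - k) := by
  intro j hj
  have := h (k + j) (by omega)
  rwa [← add_assoc] at this

/-- the prefix of length `m` of `τ` occurs in `x` at position `i`. -/
def Occ (x τ : ℕ → S) (m i : ℕ) : Prop := ∀ j, j < m → x (i + j) = τ j

theorem Occ.mono {x τ : ℕ → S} {m m' i : ℕ} (h : Occ x τ m i) (hm : m' ≤ m) : Occ x τ m' i :=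
  fun j hj => h j (hj.trans_le hm)

/-- the prefix of length `l` of `τ` occurs in `τ` only at the start. -/
def FO (τ : ℕ → S) (l : ℕ) : Prop := ∀ p, 1 ≤ p → ¬ Run τ 0 p l

/-- every prefix of `τ` with period `p` has length at most `max l (4 p / 3)`. -/
def LC (τ : ℕ → S) (l : ℕ) : Prop := ∀ p r, 1 ≤ p → Run τ 0 p r → p + r ≤ l ∨ 3 * r ≤ p

/-- the gluing `x[0, i0) τ`. -/
def splice (x τ : ℕ → S) (i0 : ℕ) : ℕ → S := fun j => if j < i0 then x j else τ (j - i0)

theorem choose_exit {x τ : ℕ → S} {l : ℕ} (hτ : FO τ l)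
    (hrec : ∀ N, ∃ i, N ≤ i ∧ Occ x τ l i) (N : ℕ) :
    ∃ m n0 n1 i0, l ≤ m ∧ N ≤ i0 ∧ n0 + 1 ≤ n1 ∧ n0 + n1 + l + 1 ≤ i0 ∧ Occ x τ l n1 ∧
      Occ x τ m i0 ∧ ∀ i, n0 ≤ i → i < i0 → ¬ Occ x τ (m + 1) i := by
  by_cases hall : ∀ m, ∀ N, ∃ i, N ≤ i ∧ Occ x τ m i
  · -- all prefixes recurrent: take a first occurrence
    obtain ⟨n1, hn1, hn1F⟩ := hrec 1
    set Bd := N + n1 + l + 10 with hBd
    have hlim : ∀ i, ∃ m, ¬ Occ x τ m i := by
      intro i
      by_contra hcon
      push Not at hcon
      obtain ⟨q, hq, hqF⟩ := hrec (i + 1)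
      apply hτ (q - i) (by omega)
      intro j hj
      rw [Nat.zero_add, ← hqF j hj, ← hcon (q - i + j + 1) (j + (q - i)) (by omega)]
      congr 1
      omega
    choose mf hmf using hlim
    set m := l + (Finset.range Bd).sup mf with hm
    have hno : ∀ i, i < Bd → ¬ Occ x τ m i := by
      intro i hi h
      apply hmf i
      apply h.mono
      have : mf i ≤ (Finset.range Bd).sup mf := Finset.le_sup (Finset.mem_range.mpr hi)
      omega
    have hex : ∃ i, Occ x τ m i := by
      obtain ⟨i, -, hi⟩ := hall m 0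
      exact ⟨i, hi⟩
    classical
    refine ⟨m, 0, n1, Nat.find hex, by omega, ?_, by omega, ?_, hn1F, Nat.find_spec hex, ?_⟩
    · by_contra hcon
      exact hno (Nat.find hex) (by omega) (Nat.find_spec hex)
    · by_contra hcon
      exact hno (Nat.find hex) (by omega) (Nat.find_spec hex)
    · intro i _ hi h
      exact Nat.find_min hex hi (h.mono (by omega))
  · push Not at hall
    classical
    set P : ℕ → Prop := fun m => ∃ N, ∀ i, N ≤ i → ¬ Occ x τ m i with hP
    have hex : ∃ m, P m := hall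
    have hmin := Nat.find_spec hex
    have hlt : ∀ m, m < Nat.find hex → ¬ P m := fun m hm => Nat.find_min hex hm
    set M := Nat.find hex with hM
    have hM4 : l + 1 ≤ M := by
      by_contra hcon
      obtain ⟨N', hN'⟩ := hmin
      obtain ⟨i, hi, hiF⟩ := hrec N'
      exact hN' i hi (hiF.mono (by omega))
    obtain ⟨n0, hn0⟩ := hmin
    obtain ⟨n1, hn1, hn1F⟩ := hrec (n0 + 1)
    have h1 := hlt (M - 1) (by omega)
    simp only [hP] at h1
    push Not at h1
    obtain ⟨i0, hi0, hocc⟩ := h1 (N + n0 + n1 + l + 1)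
    refine ⟨M - 1, n0, n1, i0, by omega, by omega, hn1, by omega, hn1F, hocc, ?_⟩
    intro i hi _ h
    exact hn0 i hi (h.mono (by omega))

/-- the context-free exit lemma. -/
theorem exit {x τ : ℕ → S} {l : ℕ} {lam : ℚ} (hlam : 4 / 3 < lam) (hx : AF lam x)
    (hτ : AF lam τ) (hfo : FO τ l) (hlc : LC τ l)
    (hrec : ∀ N, ∃ i, N ≤ i ∧ Occ x τ l i) (N : ℕ) :
    ∃ i0, N ≤ i0 ∧ AF lam (splice x τ i0) := by
  obtain ⟨m, n0, n1, i0, hm, hN, hn01, hi0, hn1F, hocc, hno⟩ := choose_exit hfo hrec N
  refine ⟨i0, hN, ?_⟩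
  set z : ℕ → S := splice x τ i0 with hz
  have zx : ∀ j, j < i0 + m → z j = x j := by
    intro j hj
    by_cases h : j < i0
    · simp only [hz, splice, if_pos h]
    · simp only [hz, splice, if_neg h]
      rw [← hocc (j - i0) (by omega)]
      congr 1
      omega
  have zt : ∀ j, i0 ≤ j → z j = τ (j - i0) := by
    intro j hj
    simp only [hz, splice, if_neg (show ¬ j < i0 by omega)]
  intro s p r hp hr hrun
  have h43 : 4 * p < 3 * r := by
    have h1 : (0 : ℚ) < p := by exact_mod_cast hp
    have h2 : (4 : ℚ) * p < 3 * r := by nlinarith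
    exact_mod_cast h2
  have hA1 : i0 + m < s + p + r := by
    by_contra h
    apply hx s p r hp hr
    intro j hj
    rw [← zx (s + j) (by omega), ← zx (s + j + p) (by omega)]
    exact hrun j hj
  have hA2 : s < i0 := by
    by_contra h
    apply hτ (s - i0) p r hp hr
    intro j hj
    have := hrun j hj
    rw [zt _ (by omega), zt _ (by omega)] at this
    convert this using 2 <;> omega
  have hA3 : s + r < i0 + l := by
    by_contra h
    apply hfo p hp
    intro j hj
    have := hrun (i0 - s + j) (by omega)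
    rw [zt _ (by omega), zt _ (by omega)] at this
    convert this using 2 <;> omega
  rcases Nat.lt_or_ge i0 (s + p) with hc | hc
  · have hrun' : Run τ 0 p (s + r - i0) := by
      intro j hj
      have := hrun (i0 - s + j) (by omega)
      rw [zt _ (by omega), zt _ (by omega)] at this
      convert this using 2 <;> omega
    rcases hlc p _ hp hrun' with h | h <;> omega
  · have hocc' : ∀ j, j < s + p + r - i0 → x (i0 - p + j) = τ j := by
      intro j hj
      have := hrun (i0 - p - s + j) (by omega)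
      rw [zx (s + (i0 - p - s + j)) (by omega), zt _ (by omega)] at this
      convert this using 2 <;> omega
    have h1 : i0 - p < n0 := by
      by_contra h
      exact hno (i0 - p) (by omega) (by omega) (fun j hj => hocc' j (by omega))
    apply hfo (n1 - (i0 - p)) (by omega)
    intro j hj
    rw [Nat.zero_add, ← hn1F j hj, ← hocc' (j + (n1 - (i0 - p))) (by omega)]
    congr 1
    omega

end Pool.Agent.BPF
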