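import Pool.Agent.BPF.Chain
import Pool.Agent.Helper85.PowerFreeComp

/-!
# Binary `α`-power-free words, `α > 7/3`: the transition property.
-/

set_option autoImplicit false

namespace Pool.Agent.BPF

open Pool.Agent.Helper85.PowerFree

/-- length of the connecting palindrome. -/
def Dl (k : ℕ) : ℕ := 4 ^ k + 8

/-- the connecting palindrome `0010 t[0, 4^k) 0100`. -/
def D (k i : ℕ) : Fin 2 := if i < 4 + 4 ^ k then TC i else TC (4 ^ k + 7 - i)

theorem D_lt (k i : ℕ) (hi : i < 4 + 4 ^ k) : D k i = TC i := by
  unfold D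
  rw [if_pos hi]

theorem D_rev (k i : ℕ) (hi : i < 4 + 4 ^ k) : D k (4 ^ k + 7 - i) = TC i := by
  rcases Nat.lt_or_ge i 4 with h | h
  · unfold D
    rw [if_neg (by omega)]
    congr 1
    omega
  · obtain ⟨j, rfl⟩ := Nat.exists_eq_add_of_le h
    rw [D_lt _ _ (by omega), show 4 ^ k + 7 - (4 + j) = 4 + (4 ^ k - 1 - j) by omega, TC_t, TC_t,
      t_pal _ _ (by omega)]

theorem D73 (k : ℕ) (hk : 3 ≤ k) (s p r : ℕ) (hp : 1 ≤ p) (hlen : s + p + r ≤ Dl k)
    (h : Run (D k) s p r) : 3 * r ≤ 4 * p := by
  have hM : 4 ^ 3 ≤ 4 ^ k := Nat.pow_le_pow_right (by norm_num) hk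
  have h64 : (4 : ℕ) ^ 3 = 64 := by norm_num
  unfold Dl at hlen
  set M := 4 ^ k with hMdef
  rcases Nat.lt_or_ge (4 + M) (s + p + r) with h1 | h1
  swap
  · apply E73_TC s p r hp
    intro j hj
    have := h j hj
    rwa [D_lt _ _ (by omega), D_lt _ _ (by omega)] at this
  rcases Nat.lt_or_ge s 4 with h2 | h2
  swap
  · apply E73_TC (M + 8 - (s + p + r)) p r hp
    intro j hj
    have := h (r - 1 - j) (by omega)
    rw [← D_rev k (M + 8 - (s + p + r) + j) (by omega),
      ← D_rev k (M + 8 - (s + p + r) + j + p) (by omega),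
      show 4 ^ k + 7 - (M + 8 - (s + p + r) + j) = s + (r - 1 - j) + p by omega,
      show 4 ^ k + 7 - (M + 8 - (s + p + r) + j + p) = s + (r - 1 - j) by omega]
    exact this.symm
  rcases Nat.lt_or_ge M p with hMp | hMp
  · omega
  have hrun : Run t 0 p (M - p) := by
    intro j hj
    have := h (4 - s + j) (by omega)
    rw [D_lt _ _ (by omega), D_lt _ _ (by omega), show s + (4 - s + j) = 4 + j by omega,
      show 4 + j + p = 4 + (j + p) by omega, TC_t, TC_t] at this
    rwa [Nat.zero_add]
  have := t_run 0 p _ hp hrun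
  omega

theorem D_occ_fin : ∀ i < 4, ∃ j < 6, TC (5 - j) ≠ TC (i + j) := by decide +kernel

theorem D_occ (k : ℕ) (hk : 3 ≤ k) (i : ℕ) (hi : 1 ≤ i) (hlen : i + 6 ≤ Dl k)
    (h : ∀ j, j < 6 → D k (i + j) = TC j) : False := by
  have hM : 4 ^ 3 ≤ 4 ^ k := Nat.pow_le_pow_right (by norm_num) hk
  have h64 : (4 : ℕ) ^ 3 = 64 := by norm_num
  unfold Dl at hlen
  rcases Nat.lt_or_ge (4 + 4 ^ k) (i + 6) with h1 | h1
  swap
  · apply FO_TC i hi
    intro j hj
    have := h j hj
    rw [D_lt _ _ (by omega)] at this
    rw [Nat.zero_add, ← this]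
    congr 1
    omega
  · obtain ⟨j, hj, hne⟩ := D_occ_fin (4 ^ k + 2 - i) (by omega)
    apply hne
    rw [← h (5 - j) (by omega), ← D_rev k (4 ^ k + 2 - i + j) (by omega)]
    congr 1
    omega

theorem D_occ' (k : ℕ) (hk : 3 ≤ k) (i : ℕ) (hlen : i + 6 < Dl k)
    (h : ∀ j, j < 6 → D k (i + j) = TC (5 - j)) : False := by
  have hM : 4 ^ 3 ≤ 4 ^ k := Nat.pow_le_pow_right (by norm_num) hk
  have h64 : (4 : ℕ) ^ 3 = 64 := by norm_num
  unfold Dl at hlen
  have hpal : ∀ n, n < 4 ^ k + 8 → D k (4 ^ k + 7 - n) = D k n := by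
    intro n hn
    rcases Nat.lt_or_ge n (4 + 4 ^ k) with h | h
    · rw [D_rev k n h, D_lt k n h]
    · have := D_rev k (4 ^ k + 7 - n) (by omega)
      rw [show 4 ^ k + 7 - (4 ^ k + 7 - n) = n by omega] at this
      rw [this, D_lt _ _ (by omega)]
  apply D_occ k hk (4 ^ k + 2 - i) (by omega) (by unfold Dl; omega)
  intro j hj
  have := h (5 - j) (by omega)
  rw [show 5 - (5 - j) = j by omega] at this
  rw [← this, ← hpal (i + (5 - j)) (by omega)]
  congr 1
  omega

/-! ### the two-sided gluing -/

/-- the glued word. -/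
def Wd (z y : ℕ → Fin 2) (k a b n : ℕ) : Fin 2 :=
  if n < a then z n else if n < a + Dl k then D k (n - a) else y (a + Dl k + b - 1 - n)

theorem glue {lam : ℚ} (hlam : 4 / 3 < lam) {z y : ℕ → Fin 2} {k a b : ℕ} (hk : 3 ≤ k)
    (hab : a + b + 20 ≤ 4 ^ k) (hz : AF lam (splice z TC a)) (hy : AF lam (splice y TC b))
    (s p r : ℕ) (hp : 1 ≤ p) (hr : lam * p ≤ r) (hsp : s + p + r ≤ a + Dl k + b)
    (hrun : Run (Wd z y k a b) s p r) : False := by
  have h43 : 4 * p < 3 * r := by
    have h1 : (0 : ℚ) < p := by exact_mod_cast hp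
    have h2 : (4 : ℚ) * p < 3 * r := by nlinarith
    exact_mod_cast h2
  have hd : Dl k = 4 ^ k + 8 := rfl
  set M := 4 ^ k with hM
  set d := Dl k with hd'
  set W := Wd z y k a b with hW
  have W1 : ∀ n, n < a + 4 + M → W n = splice z TC a n := by
    intro n hn
    simp only [hW, Wd, splice]
    by_cases h : n < a
    · rw [if_pos h, if_pos h]
    · rw [if_neg h, if_neg h, if_pos (by omega), D_lt k _ (by omega)]
  have W2 : ∀ i, i < b + 4 + M → W (a + d + b - 1 - i) = splice y TC b i := by
    intro i hi
    simp only [hW, Wd, splice]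
    by_cases h : i < b
    · rw [if_pos h, if_neg (by omega), if_neg (by omega)]
      congr 1
      omega
    · rw [if_neg h, if_neg (by omega), if_pos (by omega), ← D_rev k (i - b) (by omega)]
      congr 1
      omega
  have W3 : ∀ n, a ≤ n → n < a + d → W n = D k (n - a) := by
    intro n hn hn'
    simp only [hW, Wd]
    rw [if_neg (by omega), if_pos (by omega)]
  rcases Nat.lt_or_ge (a + 4 + M) (s + p + r) with h1 | h1
  swap
  · apply hz s p r hp hr
    intro j hj
    rw [← W1 _ (by omega), ← W1 _ (by omega)]
    exact hrun j hj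
  rcases Nat.lt_or_ge s (a + 4) with h2 | h2
  swap
  · apply hy (a + d + b - (s + p + r)) p r hp hr
    intro j hj
    have := hrun (r - 1 - j) (by omega)
    rw [← W2 _ (by omega), ← W2 _ (by omega),
      show a + d + b - 1 - (a + d + b - (s + p + r) + j) = s + (r - 1 - j) + p by omega,
      show a + d + b - 1 - (a + d + b - (s + p + r) + j + p) = s + (r - 1 - j) by omega]
    exact this.symm
  by_cases h3 : s < a
  · rcases Nat.lt_or_ge (a + 5) (s + r) with h4 | h4
    · by_cases h5 : p + 6 ≤ d
      · apply D_occ k hk p hp h5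
        intro j hj
        have := hrun (a + j - s) (by omega)
        rw [show s + (a + j - s) = a + j by omega] at this
        have e1 : W (a + j) = TC j := by
          rw [W1 _ (by omega), splice_ge]
        rw [e1, show a + j + p = a + (p + j) by omega, W3 _ (by omega) (by omega)] at this
        rw [this]
        congr 1
        omega
      · omega
    · omega
  · by_cases h4 : s + p + r ≤ a + d
    · have : 3 * r ≤ 4 * p := by
        apply D73 k hk (s - a) p r hp (by omega)
        intro j hj
        have := hrun j hj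
        rw [W3 _ (by omega) (by omega), W3 _ (by omega) (by omega)] at this
        convert this using 2 <;> omega
      omega
    · rcases Nat.lt_or_ge (a + d) (s + p + 6) with h5 | h5
      · omega
      · apply D_occ' k hk (d - 6 - p) (by omega)
        intro j hj
        have := hrun (a + d - 6 - p + j - s) (by omega)
        rw [show s + (a + d - 6 - p + j - s) = a + (d - 6 - p + j) by omega,
          show a + (d - 6 - p + j) + p = a + d + b - 1 - (b + (5 - j)) by omega,
          W3 _ (by omega) (by omega), W2 _ (by omega), splice_ge] at this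
        rw [← this]
        congr 1
        omega

/-! ### compactness -/

theorem NB_iff {lam : ℚ} {z : List (Fin 2)} (h : NB lam z) (s p r : ℕ) (hp : 1 ≤ p)
    (hr : lam * p ≤ r) (hsp : s + p + r ≤ z.length) :
    ∃ j, j < r ∧ z.getD (s + j) 0 ≠ z.getD (s + j + p) 0 := by
  obtain ⟨j, hj, hne⟩ := h s p r hp hr hsp
  refine ⟨j, hj, fun h' => hne ?_⟩
  rw [List.getD_eq_getElem?_getD, List.getD_eq_getElem?_getD,
    List.getElem?_eq_getElem (by omega), List.getElem?_eq_getElem (by omega)] at h'
  rw [List.getElem?_eq_getElem (by omega), List.getElem?_eq_getElem (by omega)]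
  simp only [Option.getD_some] at h'
  rw [h']

theorem exists_infinite {lam : ℚ} {u : List (Fin 2)}
    (hu : ∀ N : ℕ, ∃ w : List (Fin 2), N ≤ w.length ∧ NB lam (u ++ w)) :
    ∃ x : ℕ → Fin 2, AF lam x ∧ ∀ i, i < u.length → x i = u.getD i 0 := by
  let K : ℕ → Set (ℕ → Fin 2) := fun N => {x | (∀ i, i < u.length → x i = u.getD i 0) ∧
    ∀ s p r : ℕ, 1 ≤ p → lam * p ≤ r → s + p + r ≤ N → ∃ j, j < r ∧ x (s + j) ≠ x (s + j + p)}
  have hclosed : ∀ N, IsClosed (K N) := by
    intro N
    simp only [K, Set.ofPred_and, Set.ofPred_forall]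
    apply IsClosed.inter
    · refine isClosed_iInter fun i => isClosed_iInter fun _ => ?_
      exact isClosed_eq (continuous_apply i) continuous_const
    · refine isClosed_iInter fun s => isClosed_iInter fun p => isClosed_iInter fun r =>
        isClosed_iInter fun _ => isClosed_iInter fun _ => isClosed_iInter fun _ => ?_
      have : {x : ℕ → Fin 2 | ∃ j, j < r ∧ x (s + j) ≠ x (s + j + p)} =
          ⋃ j ∈ Set.Iio r, {x : ℕ → Fin 2 | x (s + j) ≠ x (s + j + p)} := by
        ext x
        simp
      rw [this]
      apply (Set.finite_Iio r).isClosed_biUnion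
      intro j _
      exact (isClosed_discrete {q : Fin 2 × Fin 2 | q.1 ≠ q.2}).preimage
        (f := fun x : ℕ → Fin 2 => (x (s + j), x (s + j + p)))
        ((continuous_apply _).prodMk (continuous_apply _))
  have hne : (⋂ N, K N).Nonempty := by
    apply IsCompact.nonempty_iInter_of_sequence_nonempty_isCompact_isClosed
    · intro N x hx
      exact ⟨hx.1, fun s p r hp hr hsp => hx.2 s p r hp hr (by omega)⟩
    · intro N
      obtain ⟨w, hw, hNB⟩ := hu N
      refine ⟨fun i => (u ++ w).getD i 0, ?_, ?_⟩
      · intro i hi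
        simp only [List.getD_eq_getElem?_getD]
        rw [List.getElem?_append_left hi]
      · intro s p r hp hr hsp
        exact NB_iff hNB s p r hp hr (by rw [List.length_append]; omega)
    · exact (hclosed 0).isCompact
    · exact hclosed
  obtain ⟨x, hx⟩ := hne
  rw [Set.mem_iInter] at hx
  refine ⟨x, fun s p r hp hr hrun => ?_, (hx 0).1⟩
  obtain ⟨j, hj, hne⟩ := (hx (s + p + r)).2 s p r hp hr le_rfl
  exact hne (hrun j hj)

/-! ### the transition property -/

theorem transition {α : ℚ} (hα : 7 / 3 < α) (u v : List (Fin 2))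
    (hu : ∀ N : ℕ, ∃ w : List (Fin 2), N ≤ w.length ∧ PF α (u ++ w))
    (hv : ∀ N : ℕ, ∃ w : List (Fin 2), N ≤ w.length ∧ PF α (w ++ v)) :
    ∃ w : List (Fin 2), PF α (u ++ w ++ v) := by
  have hα1 : (1 : ℚ) < α := by linarith
  have hlam : 4 / 3 < α - 1 := by linarith
  simp only [PF_iff_NB hα1] at hu hv ⊢
  generalize α - 1 = lam at hu hv hlam ⊢
  obtain ⟨x, hx, hxu⟩ := exists_infinite hu
  obtain ⟨y, hy, hyv⟩ := exists_infinite (u := v.reverse) (by
    intro N
    obtain ⟨w, hw, hNB⟩ := hv N
    refine ⟨w.reverse, by simpa using hw, ?_⟩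
    have := hNB.reverse
    rwa [List.reverse_append] at this)
  obtain ⟨x', a, hxx', ha, hza⟩ := tail hlam hx u.length
  obtain ⟨y', b, hyy', hb, hzb⟩ := tail hlam hy v.reverse.length
  have hlt : a + b + 20 < 4 ^ (a + b + 20) := Nat.lt_pow_self (by norm_num)
  set k := a + b + 20 with hk
  have hgl := glue hlam (k := k) (a := a) (b := b) (by omega) (by omega) hza hzb
  set W := Wd x' y' k a b with hW
  set L := a + Dl k + b with hL
  set z : List (Fin 2) := (List.range L).map W with hz
  have hzlen : z.length = L := by simp [hz]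
  have hzget : ∀ i, i < L → z[i]? = some (W i) := by
    intro i hi
    rw [hz, List.getElem?_map, List.getElem?_range hi]
    rfl
  have hzNB : NB lam z := by
    intro s p r hp hr hlen
    by_contra hcon
    push Not at hcon
    apply hgl s p r hp hr (by omega)
    intro j hj
    have := hcon j hj
    rw [hzget _ (by omega), hzget _ (by omega)] at this
    exact Option.some.inj this
  rw [List.length_reverse] at hb
  refine ⟨(z.drop u.length).take (L - u.length - v.length), ?_⟩
  have hzeq : z = u ++ (z.drop u.length).take (L - u.length - v.length) ++ v := by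
    apply List.ext_getElem?
    intro i
    rcases Nat.lt_or_ge i u.length with h1 | h1
    · rw [List.append_assoc, List.getElem?_append_left h1, hzget i (by omega)]
      simp only [hW, Wd]
      rw [if_pos (by omega), hxx' i h1, hxu i h1, List.getD_eq_getElem?_getD,
        List.getElem?_eq_getElem h1]
      rfl
    · rcases Nat.lt_or_ge i (L - v.length) with h2 | h2
      · rw [List.append_assoc, List.getElem?_append_right h1, List.getElem?_append_left
          (by simp; omega), List.getElem?_take_of_lt (by omega), List.getElem?_drop]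
        congr 1
        omega
      · rw [List.getElem?_append_right (by simp; omega)]
        have hlen : (u ++ (z.drop u.length).take (L - u.length - v.length)).length =
            L - v.length := by
          simp
          omega
        rw [hlen]
        rcases Nat.lt_or_ge i L with h3 | h3
        · rw [hzget i h3, List.getElem?_eq_getElem (show i - (L - v.length) < v.length by omega)]
          simp only [hW, Wd]
          rw [if_neg (by omega), if_neg (by omega), hyy' _ (by rw [List.length_reverse]; omega),
            hyv _ (by rw [List.length_reverse]; omega), List.getD_eq_getElem?_getD,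
            List.getElem?_reverse (by omega), List.getElem?_eq_getElem (by omega)]
          simp only [Option.getD_some]
          congr 2
          omega
        · rw [List.getElem?_eq_none (by omega), List.getElem?_eq_none (by omega)]
  rw [← hzeq]
  exact hzNB

end Pool.Agent.BPF
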